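import Mathlib
import Pool.Agent.H472.Q2.Final
import Pool.Graph.R_seed8.H13R3.EM.Tw

/-!
# MP_2a1a00_nt, Q2: the conjectured asymptotic formula for twisted hybrid moments is false

`Sel` (library module `Pool.Graph.R_seed8.H13R3.EM.Defs`) is an element of the Selberg class with all its data,
`Sel.deg` its degree, `Sel.err` its error term `E_f(x)`; `L.G s / (s - 1) ^ L.m0` is the value `𝔏(s)`.
For every `𝔏` which satisfies the mean-square hypothesis of the problem there are two entire elements of integer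
degrees `d₁ < d₂`, both with a second moment asymptotic, such that `∫_1^T E₁² E₂² |𝔏(1/2+ix)|² dx` is not
`O(T^(1+σ+ε₀))` for some `ε₀ > 0`.
-/

set_option autoImplicit false

namespace Pool.Agent.Results.MP_2a1a00_nt.TwistedMomentsQ2

open Pool.Agent.H13R3.EM

/-- `∫_1^T E_f^ℓ = C T^(1 + ℓ(d-1)/(2d)) + O(T^(1 + ℓ(d-1)/(2d) - δ + ε))` with `C ≠ 0` and some `δ > 0`. -/
def Moment (F : Sel) (d ℓ : ℕ) (C : ℂ) : Prop :=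
  C ≠ 0 ∧ ∃ δ : ℝ, 0 < δ ∧ ∀ ε : ℝ, 0 < ε → ∃ K : ℝ, ∀ T : ℝ, 1 ≤ T →
    ‖(∫ x in (1:ℝ)..T, F.err x ^ ℓ) - C * ((T ^ (1 + (ℓ : ℝ) * ((d : ℝ) - 1) / (2 * d)) : ℝ) : ℂ)‖ ≤
      K * T ^ (1 + (ℓ : ℝ) * ((d : ℝ) - 1) / (2 * d) - δ + ε)

/-- the exponent `σ = ∑ ℓ_j (d_j - 1) / (2 d_j)` -/
noncomputable def sigma {k : ℕ} (d ℓ : Fin k → ℕ) : ℝ := ∑ j, (ℓ j : ℝ) * ((d j : ℝ) - 1) / (2 * (d j : ℝ))

/-- `|𝔏(1/2 + i x)|²` -/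
noncomputable def weight (L : Sel) (x : ℝ) : ℝ :=
  ‖L.G (1 / 2 + x * Complex.I) / (1 / 2 + x * Complex.I - 1) ^ L.m0‖ ^ 2

/-- `∫_1^T |𝔏(1/2+it)|² dt = T P(log T) + O(T^(1-η))` for some `η > 0`; `P ≠ 0`. -/
def MeanSquare (L : Sel) (P : Polynomial ℝ) : Prop := P ≠ 0 ∧ ∃ η : ℝ, 0 < η ∧ ∃ C : ℝ, ∀ T : ℝ, 1 ≤ T →
    |(∫ x in (1:ℝ)..T, weight L x) - T * P.eval (Real.log T)| ≤ C * T ^ (1 - η)

/-- Q2 for the fixed twist `𝔏` with mean-square polynomial `P`: for all `k`, `d_j`, `ℓ_j ≥ 2` there is a constant `C₁`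
such that for all `f_j` with `ℓ_j`-th moment asymptotics with constants `C_j` there are a polynomial `𝒬` of degree `deg P` and
`δ₂ > 0` with `I(T) = C₁ ∏ C_j T^(1+σ) 𝒬(log T) + O(T^(1+σ-δ₂+ε))`, `C₁ ∏ C_j ≠ 0`. -/
def Q2For (L : Sel) (P : Polynomial ℝ) : Prop := ∀ (k : ℕ) (d ℓ : Fin k → ℕ), 2 ≤ k → StrictMono d → (∀ j, 2 ≤ d j) →
  (∀ j, 2 ≤ ℓ j) → ∃ C₁ : ℂ, ∀ (F : Fin k → Sel) (C : Fin k → ℂ), (∀ j, (F j).deg = (d j : ℝ)) →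
    (∀ j, Moment (F j) (d j) (ℓ j) (C j)) →
    C₁ * ∏ j, C j ≠ 0 ∧ ∃ Q : Polynomial ℂ, Q.natDegree = P.natDegree ∧ ∃ δ : ℝ, 0 < δ ∧ ∀ ε : ℝ, 0 < ε → ∃ K : ℝ,
      ∀ T : ℝ, 1 ≤ T →
      ‖(∫ x in (1:ℝ)..T, (∏ j, (F j).err x ^ ℓ j) * (weight L x : ℂ)) -
        C₁ * (∏ j, C j) * ((T ^ (1 + sigma d ℓ) : ℝ) : ℂ) * Q.eval ((Real.log T : ℝ) : ℂ)‖ ≤
        K * T ^ (1 + sigma d ℓ - δ + ε)

/-- Q2 of the problem. -/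
def Q2 : Prop := ∀ (L : Sel) (P : Polynomial ℝ), MeanSquare L P → Q2For L P

/-- Q2 is false; moreover it fails for EVERY admissible twist `𝔏`, in the strong form that `I(T)` is not
`O(T^(1+σ+ε₀))` for two suitable entire elements and some `ε₀ > 0`. -/
theorem result : ¬ Q2 ∧ ∀ (L : Sel) (P : Polynomial ℝ), MeanSquare L P → ¬ Q2For L P ∧
    ∃ (F : Fin 2 → Sel) (d : Fin 2 → ℕ) (C : Fin 2 → ℂ), StrictMono d ∧ (∀ j, 2 ≤ d j) ∧ (∀ j, (F j).deg = (d j : ℝ)) ∧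
      (∀ j, (F j).m0 = 0) ∧ (∀ j, Moment (F j) (d j) 2 (C j)) ∧
      ∃ ε₀ : ℝ, 0 < ε₀ ∧ ∀ K : ℝ, ∃ T : ℝ, 1 ≤ T ∧
        K * T ^ (1 + sigma d (fun _ => 2) + ε₀) < ‖∫ x in (1:ℝ)..T, (∏ j, (F j).err x ^ 2) * (weight L x : ℂ)‖ := by
  have key : ∀ (L : Sel) (P : Polynomial ℝ), MeanSquare L P → ¬ Q2For L P ∧
    ∃ (F : Fin 2 → Sel) (d : Fin 2 → ℕ) (C : Fin 2 → ℂ), StrictMono d ∧ (∀ j, 2 ≤ d j) ∧ (∀ j, (F j).deg = (d j : ℝ)) ∧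
      (∀ j, (F j).m0 = 0) ∧ (∀ j, Moment (F j) (d j) 2 (C j)) ∧
      ∃ ε₀ : ℝ, 0 < ε₀ ∧ ∀ K : ℝ, ∃ T : ℝ, 1 ≤ T ∧
        K * T ^ (1 + sigma d (fun _ => 2) + ε₀) < ‖∫ x in (1:ℝ)..T, (∏ j, (F j).err x ^ 2) * (weight L x : ℂ)‖ := by
    rintro L P ⟨hP0, η, hη, hC⟩
    have hcont : Continuous (weight L) := val_cont L
    have hsp := Pool.Agent.H472.Q2.spikes (weight L) P η hη (fun x => by unfold weight; positivity)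
      (fun T _ => hcont.intervalIntegrable _ _) hP0 hC
    obtain ⟨F, d, hd, hd2, hdeg, hm0, hmom, ⟨ε₀, hε₀, hbig⟩, hno⟩ := Pool.Agent.H472.Q2.no_main_term hsp
    have hex : ∀ j, ∃ C : ℂ, Moment (F j) (d j) 2 C := fun j => by
      obtain ⟨C, hC0, hC⟩ := hmom j
      exact ⟨C, hC0, hC⟩
    choose C hC using hex
    refine ⟨fun hQ => ?_, F, d, C, hd, hd2, hdeg, hm0, hC, ε₀, hε₀, hbig⟩
    obtain ⟨C₁, h⟩ := hQ 2 d (fun _ => 2) le_rfl hd hd2 (fun _ => le_rfl)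
    obtain ⟨-, Q, -, δ, hδ, hε⟩ := h F C hdeg hC
    refine hno (Polynomial.C (C₁ * ∏ j, C j) * Q) ⟨δ, hδ, fun ε hε' => ?_⟩
    obtain ⟨K, hK⟩ := hε ε hε'
    refine ⟨K, fun T hT => ?_⟩
    have h1 := hK T hT
    rw [Polynomial.eval_mul, Polynomial.eval_C]
    have e1 : C₁ * (∏ j, C j) * ((T ^ (1 + sigma d (fun _ => 2)) : ℝ) : ℂ) * Q.eval ((Real.log T : ℝ) : ℂ) =
        ((T ^ (1 + Pool.Agent.H472.Q2.sigQ d (fun _ => 2)) : ℝ) : ℂ) * (C₁ * (∏ j, C j) * Q.eval ((Real.log T : ℝ) : ℂ)) := by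
      change _ = ((T ^ (1 + sigma d (fun _ => 2)) : ℝ) : ℂ) * _
      ring
    rw [← e1]
    exact h1
  refine ⟨fun h => ?_, key⟩
  have h1 : MeanSquare oneSel 1 := by
    obtain ⟨hP0, hη, hC⟩ := oneSel_meanSq
    exact ⟨hP0, 1, hη, hC⟩
  exact (key oneSel 1 h1).1 (h oneSel 1 h1)

end Pool.Agent.Results.MP_2a1a00_nt.TwistedMomentsQ2
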